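import Mathlib
import Pool.Agent.H78.PB.Stm2
import Pool.Agent.N892.BW.RZ

/-!
# Project PB, stub KEB: the `L ^ 4` edge, second part
-/

set_option autoImplicit false
set_option linter.all false

open MeasureTheory ENNReal Filter Topology Complex Set
open scoped ComplexConjugate

namespace Pool.Agent.H35PB.KEB

open Pool.Agent.N892.BW Pool.Agent.H78.PB

/-- multiplication by a complex number -/
noncomputable def mulR (c : ℂ) : ℂ →L[ℝ] ℂ :=
  (ContinuousLinearMap.toSpanSingleton ℂ c).restrictScalars ℝ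

theorem det_mulR (c : ℂ) : |(mulR c).det| = ‖c‖ ^ 2 := by
  have h1 : ((mulR c : ℂ →L[ℝ] ℂ) : ℂ →ₗ[ℝ] ℂ) = Algebra.lmul ℝ ℂ c := by
    refine LinearMap.ext fun z => ?_
    simp [mulR]
    ring
  have h2 : (mulR c).det = LinearMap.det ((mulR c : ℂ →L[ℝ] ℂ) : ℂ →ₗ[ℝ] ℂ) := rfl
  rw [h2, h1, ← Algebra.norm_apply, Algebra.norm_complex_apply, abs_of_nonneg (normSq_nonneg _),
    normSq_eq_norm_sq]

/-- change of variables for a holomorphic function -/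
theorem cov (s : Set ℂ) (hs : MeasurableSet s) (f f' : ℂ → ℂ) (hf : ∀ z ∈ s, HasDerivAt f (f' z) z)
    (hi : InjOn f s) (g : ℂ → ℝ≥0∞) :
    ∫⁻ x in f '' s, g x = ∫⁻ x in s, ENNReal.ofReal (‖f' x‖ ^ 2) * g (f x) := by
  have h := lintegral_image_eq_lintegral_abs_det_fderiv_mul (volume : Measure ℂ) hs
    (f := f) (f' := fun z => mulR (f' z))
    (fun x hx => ((hf x hx).hasFDerivAt.restrictScalars ℝ).hasFDerivWithinAt) hi g
  rw [h]
  simp only [det_mulR]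

theorem scal (v : ℂ) (hv : v ≠ 0) (g : ℂ → ℝ≥0∞) :
    ∫⁻ s, g s = ∫⁻ t, ENNReal.ofReal (‖v‖ ^ 2) * g (v * t) := by
  have h := cov univ MeasurableSet.univ (fun t => v * t) (fun _ => v)
    (fun z _ => by simpa using (hasDerivAt_id z).const_mul v)
    (fun a _ b _ hab => mul_left_cancel₀ hv hab) g
  have h2 : (fun t : ℂ => v * t) '' univ = univ := by
    rw [image_univ]
    exact range_eq_univ.2 fun z => ⟨v⁻¹ * z, mul_inv_cancel_left₀ hv z⟩
  rw [h2, Measure.restrict_univ] at h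
  exact h

theorem inv (u : ℂ) (hu : u ≠ 0) (g : ℂ → ℝ≥0∞) :
    ∫⁻ s, g s = ∫⁻ z, ENNReal.ofReal ((‖u‖ / ‖z‖ ^ 2) ^ 2) * g (u / z) := by
  have h := cov ({0}ᶜ) (measurableSet_singleton (0 : ℂ)).compl (fun z => u / z)
    (fun z => -u / z ^ 2)
    (fun z hz => by
      have h := (hasDerivAt_inv (show z ≠ 0 from hz)).const_mul u
      have e : -u / z ^ 2 = u * -(z ^ 2)⁻¹ := by
        rw [div_eq_mul_inv]
        ring
      rw [e]
      simpa [div_eq_mul_inv] using h)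
    (fun a ha b hb hab => by
      have ha' : a ≠ 0 := ha
      have hb' : b ≠ 0 := hb
      simp only at hab
      rw [div_eq_div_iff ha' hb'] at hab
      exact (mul_left_cancel₀ hu hab).symm) g
  have h2 : (fun z : ℂ => u / z) '' ({0}ᶜ : Set ℂ) = {0}ᶜ := by
    ext w
    constructor
    · rintro ⟨z, hz, rfl⟩
      exact div_ne_zero hu hz
    · intro hw
      have hw' : w ≠ 0 := hw
      exact ⟨u / w, div_ne_zero hu hw', by simp only; rw [div_div_cancel₀ hu]⟩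
  rw [h2, restrict_compl_singleton] at h
  rw [h]
  simp only [norm_div, norm_neg, norm_pow]

/-- the modulus -/
noncomputable def M (t : ℂ) : ℝ := (‖t‖ * ‖1 - t‖) ^ (-(3 / 2) : ℝ)

/-- the phase -/
noncomputable def l (t : ℂ) : ℝ := Real.log (‖t‖ * ‖1 - t‖) / 2

theorem rp (x : ℝ) (hx : 0 < x) : (x ^ 2) ^ (-(3 / 2) : ℝ) = (x ^ 3)⁻¹ := by
  rw [← Real.rpow_natCast, ← Real.rpow_mul hx.le, ← Real.rpow_natCast, ← Real.rpow_neg hx.le]
  congr 1
  push_cast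
  ring

theorem rh (x : ℝ) (hx : 0 < x) : (x ^ 2) ^ (1 / 2 : ℝ) = x := by
  rw [← Real.rpow_natCast, ← Real.rpow_mul hx.le]
  norm_num

theorem alg (a b c d e : ℝ) (ha : 0 < a) (hb : 0 < b) (hc : 0 < c) (hd : 0 < d) (he : 0 < e) :
    (a / b ^ 2) ^ 2 * ((a / b) ^ 2 * (a ^ (1 / 2 : ℝ) * (a * c / b) ^ (-(3 / 2) : ℝ) *
      ((a * d / b) * (a * e / b)) ^ (-(3 / 2) : ℝ))) =
    (b * c) ^ (-(3 / 2) : ℝ) * (d * e) ^ (-(3 / 2) : ℝ) := by
  obtain ⟨α, hα, rfl⟩ : ∃ α : ℝ, 0 < α ∧ α ^ 2 = a := ⟨√a, Real.sqrt_pos.2 ha, Real.sq_sqrt ha.le⟩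
  obtain ⟨β, hβ, rfl⟩ : ∃ α : ℝ, 0 < α ∧ α ^ 2 = b := ⟨√b, Real.sqrt_pos.2 hb, Real.sq_sqrt hb.le⟩
  obtain ⟨γ, hγ, rfl⟩ : ∃ α : ℝ, 0 < α ∧ α ^ 2 = c := ⟨√c, Real.sqrt_pos.2 hc, Real.sq_sqrt hc.le⟩
  obtain ⟨δ, hδ, rfl⟩ : ∃ α : ℝ, 0 < α ∧ α ^ 2 = d := ⟨√d, Real.sqrt_pos.2 hd, Real.sq_sqrt hd.le⟩
  obtain ⟨ε, hε, rfl⟩ : ∃ α : ℝ, 0 < α ∧ α ^ 2 = e := ⟨√e, Real.sqrt_pos.2 he, Real.sq_sqrt he.le⟩
  rw [show α ^ 2 * γ ^ 2 / β ^ 2 = (α * γ / β) ^ 2 by ring,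
    show α ^ 2 * δ ^ 2 / β ^ 2 * (α ^ 2 * ε ^ 2 / β ^ 2) = (α * δ / β * (α * ε / β)) ^ 2 by ring,
    show β ^ 2 * γ ^ 2 = (β * γ) ^ 2 by ring, show δ ^ 2 * ε ^ 2 = (δ * ε) ^ 2 by ring,
    rh α hα, rp _ (by positivity), rp _ (by positivity), rp _ (by positivity), rp _ (by positivity)]
  field_simp

theorem ae_ne (a : ℂ) : ∀ᵐ z : ℂ, z ≠ a := by
  rw [ae_iff]; simp

theorem jd (g : ℝ → ℝ) (u : ℂ) (hu : u ≠ 0) :
    ∫⁻ v : ℂ, ∫⁻ s : ℂ, ENNReal.ofReal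
      (‖u‖ ^ (1 / 2 : ℝ) * ‖v - u‖ ^ (-(3 / 2) : ℝ) * (‖s‖ * ‖v - s‖) ^ (-(3 / 2) : ℝ) *
        g (Real.log ((‖u‖ * ‖v - u‖) / (‖s‖ * ‖v - s‖)) / 2)) =
    ∫⁻ z : ℂ, ∫⁻ t : ℂ, ENNReal.ofReal (M z * M t * g (l z - l t)) := by
  rw [inv u hu]
  apply lintegral_congr_ae
  filter_upwards [ae_ne 0, ae_ne 1] with z hz0 hz1
  have hv : u / z ≠ 0 := div_ne_zero hu hz0
  rw [scal (u / z) hv, ← lintegral_const_mul' _ _ ENNReal.ofReal_ne_top]
  apply lintegral_congr_ae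
  filter_upwards [ae_ne 0, ae_ne 1] with t ht0 ht1
  have ha : 0 < ‖u‖ := norm_pos_iff.2 hu
  have hb : 0 < ‖z‖ := norm_pos_iff.2 hz0
  have hc : 0 < ‖1 - z‖ := norm_pos_iff.2 (sub_ne_zero.2 (Ne.symm hz1))
  have hd : 0 < ‖t‖ := norm_pos_iff.2 ht0
  have he : 0 < ‖1 - t‖ := norm_pos_iff.2 (sub_ne_zero.2 (Ne.symm ht1))
  have e1 : ‖u / z - u‖ = ‖u‖ * ‖1 - z‖ / ‖z‖ := by
    rw [show u / z - u = u * (1 - z) / z by field_simp, norm_div, norm_mul]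
  have e2 : ‖u / z * t‖ = ‖u‖ * ‖t‖ / ‖z‖ := by
    rw [norm_mul, norm_div]; ring
  have e3 : ‖u / z - u / z * t‖ = ‖u‖ * ‖1 - t‖ / ‖z‖ := by
    rw [show u / z - u / z * t = u * (1 - t) / z by ring, norm_div, norm_mul]
  rw [e1, e2, e3, norm_div, ← ENNReal.ofReal_mul (by positivity), ← ENNReal.ofReal_mul (by positivity)]
  congr 1
  have e4 : ‖u‖ * (‖u‖ * ‖1 - z‖ / ‖z‖) / (‖u‖ * ‖t‖ / ‖z‖ * (‖u‖ * ‖1 - t‖ / ‖z‖)) =
      (‖z‖ * ‖1 - z‖) / (‖t‖ * ‖1 - t‖) := by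
    field_simp
  rw [e4, Real.log_div (by positivity) (by positivity), sub_div]
  have e5 := alg ‖u‖ ‖z‖ ‖1 - z‖ ‖t‖ ‖1 - t‖ ha hb hc hd he
  rw [M, M, ← e5, l, l]
  ring

theorem M_meas : Measurable M := by
  unfold M
  fun_prop

theorem l_meas : Measurable l := by
  unfold l
  fun_prop

theorem M_nonneg (t : ℂ) : 0 ≤ M t := by
  unfold M
  positivity

theorem M_int : Integrable M := by
  refine ⟨M_meas.aestronglyMeasurable, ?_⟩
  rw [hasFiniteIntegral_iff_ofReal (Eventually.of_forall M_nonneg)]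
  have h := RZ.t (1 / 2) (1 / 2) (by norm_num) (by norm_num) (by norm_num) 1 one_ne_zero
  have h2 : ∀ y : ℂ, ENNReal.ofReal (M y) =
      ENNReal.ofReal (‖y‖ ^ ((1 / 2 : ℝ) - 2)) * ENNReal.ofReal (‖1 - y‖ ^ ((1 / 2 : ℝ) - 2)) := by
    intro y
    rw [← ENNReal.ofReal_mul (by positivity), M, Real.mul_rpow (norm_nonneg _) (norm_nonneg _)]
    norm_num
  simp_rw [h2]
  rw [h]
  exact ENNReal.ofReal_lt_top

/-- the weight -/
noncomputable def w (θ y : ℝ) : ℝ := (1 + y ^ 2) * p1 θ y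

theorem p1_meas (θ : ℝ) : Measurable (p1 θ) := by
  unfold p1
  fun_prop

theorem w_meas (θ : ℝ) : Measurable (w θ) := by
  unfold w
  exact (by fun_prop : Measurable fun y : ℝ => 1 + y ^ 2).mul (p1_meas θ)

theorem w_int (h1 : P_KRN) (θ : ℝ) (h0 : 0 < θ) (hθ : θ < 1) :
    Integrable (fun y : ℝ => w θ y * (1 + |y|)) := by
  have h := ((h1 θ h0 hθ).1 3).2
  refine h.mono (((w_meas θ).mul (by fun_prop)).aestronglyMeasurable) ?_
  refine Eventually.of_forall fun y => ?_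
  rw [norm_mul, norm_mul, Real.norm_eq_abs, Real.norm_eq_abs, Real.norm_eq_abs, Real.norm_eq_abs, w,
    abs_mul, abs_of_nonneg (by positivity : (0 : ℝ) ≤ 1 + y ^ 2),
    abs_of_nonneg (by positivity : (0 : ℝ) ≤ 1 + |y|),
    abs_of_nonneg (by positivity : (0 : ℝ) ≤ (1 + |y|) ^ 3)]
  have h3 : (1 + y ^ 2) * (1 + |y|) ≤ (1 + |y|) ^ 3 := by
    have : y ^ 2 = |y| ^ 2 := (sq_abs y).symm
    rw [this]
    have := abs_nonneg y
    nlinarith [mul_nonneg this this, mul_nonneg this (mul_nonneg this this)]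
  calc (1 + y ^ 2) * |p1 θ y| * (1 + |y|) = |p1 θ y| * ((1 + y ^ 2) * (1 + |y|)) := by ring
    _ ≤ _ := by gcongr

/-- the integrand -/
noncomputable def Ψ (θ : ℝ) (p : ℂ × ℂ) (y : ℝ) : ℂ :=
  ((w θ y : ℝ) : ℂ) * (1 + (y : ℂ) * I) * (((M p.1 * M p.2 : ℝ) : ℂ) *
    Complex.exp (((y * (l p.1 - l p.2) : ℝ) : ℂ) * I))

theorem Ψ_meas (θ : ℝ) : Measurable (fun q : (ℂ × ℂ) × ℝ => Ψ θ q.1 q.2) := by
  have hw := w_meas θ
  have hM := M_meas
  have hl := l_meas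
  unfold Ψ
  fun_prop

theorem Ψ_norm (θ : ℝ) (p : ℂ × ℂ) (y : ℝ) :
    ‖Ψ θ p y‖ ≤ (M p.1 * M p.2) * |w θ y * (1 + |y|)| := by
  unfold Ψ
  rw [norm_mul, norm_mul, norm_mul, Complex.norm_exp_ofReal_mul_I, mul_one, Complex.norm_real,
    Complex.norm_real, Real.norm_eq_abs, Real.norm_eq_abs,
    abs_of_nonneg (mul_nonneg (M_nonneg p.1) (M_nonneg p.2)), abs_mul,
    abs_of_nonneg (by positivity : (0 : ℝ) ≤ 1 + |y|)]
  have h1 : ‖(1 : ℂ) + (y : ℂ) * I‖ ≤ 1 + |y| := by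
    refine (norm_add_le _ _).trans ?_
    simp
  have := mul_nonneg (M_nonneg p.1) (M_nonneg p.2)
  calc |w θ y| * ‖(1 : ℂ) + (y : ℂ) * I‖ * (M p.1 * M p.2) ≤
      |w θ y| * (1 + |y|) * (M p.1 * M p.2) := by gcongr
    _ = _ := by ring

theorem Ψ_int (h1 : P_KRN) (θ : ℝ) (h0 : 0 < θ) (hθ : θ < 1) :
    Integrable (fun q : (ℂ × ℂ) × ℝ => Ψ θ q.1 q.2)
      ((((volume : Measure ℂ).prod (volume : Measure ℂ))).prod (volume : Measure ℝ)) := by
  have h2 : Integrable (fun p : ℂ × ℂ => M p.1 * M p.2)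
      ((volume : Measure ℂ).prod (volume : Measure ℂ)) := M_int.mul_prod M_int
  have h3 := h2.mul_prod (w_int h1 θ h0 hθ).abs
  refine h3.mono (Ψ_meas θ).aestronglyMeasurable (Eventually.of_forall fun q => ?_)
  refine (Ψ_norm θ q.1 q.2).trans (le_abs_self _ |>.trans_eq ?_)
  rw [← Real.norm_eq_abs]

theorem RI_eq (y : ℝ) : RI y = ∫ t, ((M t : ℝ) : ℂ) * Complex.exp (((-(y * l t) : ℝ) : ℂ) * I) := by
  unfold RI
  apply integral_congr_ae
  filter_upwards [ae_ne 0, ae_ne 1] with t ht0 ht1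
  have hd : 0 < ‖t‖ := norm_pos_iff.2 ht0
  have he : 0 < ‖1 - t‖ := norm_pos_iff.2 (sub_ne_zero.2 (Ne.symm ht1))
  have hp : 0 < ‖t‖ * ‖1 - t‖ := mul_pos hd he
  have hne : ((‖t‖ * ‖1 - t‖ : ℝ) : ℂ) ≠ 0 := by exact_mod_cast hp.ne'
  rw [M, l, Complex.ofReal_cpow hp.le, Complex.cpow_def_of_ne_zero hne,
    Complex.cpow_def_of_ne_zero hne, ← Complex.exp_add, ← Complex.ofReal_log hp.le]
  congr 1
  push_cast
  ring

theorem RI_conj (y : ℝ) :
    conj (RI y) = ∫ t, ((M t : ℝ) : ℂ) * Complex.exp (((y * l t : ℝ) : ℂ) * I) := by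
  rw [RI_eq, ← integral_conj]
  congr 1
  funext t
  rw [map_mul, Complex.conj_ofReal, ← Complex.exp_conj, map_mul, Complex.conj_ofReal,
    Complex.conj_I]
  congr 2
  push_cast
  ring

theorem int_p (θ y : ℝ) :
    ∫ p, Ψ θ p y ∂((volume : Measure ℂ).prod (volume : Measure ℂ)) =
      ((w θ y : ℝ) : ℂ) * (1 + (y : ℂ) * I) * ((‖RI y‖ ^ 2 : ℝ) : ℂ) := by
  unfold Ψ
  rw [integral_const_mul]
  congr 1
  have h : ∀ p : ℂ × ℂ, (((M p.1 * M p.2 : ℝ) : ℂ) *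
      Complex.exp (((y * (l p.1 - l p.2) : ℝ) : ℂ) * I)) =
      (((M p.1 : ℝ) : ℂ) * Complex.exp (((y * l p.1 : ℝ) : ℂ) * I)) *
      (((M p.2 : ℝ) : ℂ) * Complex.exp (((-(y * l p.2) : ℝ) : ℂ) * I)) := by
    intro p
    have e : ((y * (l p.1 - l p.2) : ℝ) : ℂ) * I =
        ((y * l p.1 : ℝ) : ℂ) * I + ((-(y * l p.2) : ℝ) : ℂ) * I := by
      push_cast
      ring
    rw [e, Complex.exp_add]
    push_cast
    ring
  simp_rw [h]
  rw [integral_prod_mul (fun t => ((M t : ℝ) : ℂ) * Complex.exp (((y * l t : ℝ) : ℂ) * I))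
    (fun t => ((M t : ℝ) : ℂ) * Complex.exp (((-(y * l t) : ℝ) : ℂ) * I)), ← RI_conj, ← RI_eq,
    mul_comm, Complex.mul_conj, Complex.normSq_eq_norm_sq]

theorem int_y (h1 : P_KRN) (θ : ℝ) (h0 : 0 < θ) (hθ : θ < 1) (p : ℂ × ℂ) :
    (∫ y, Ψ θ p y).re = M p.1 * M p.2 * (rr θ (l p.1 - l p.2) + rd θ (l p.1 - l p.2)) := by
  set L := l p.1 - l p.2 with hL
  have hw := w_meas θ
  have i0 := w_int h1 θ h0 hθ
  have i1 : Integrable (fun y : ℝ => w θ y * Real.cos (L * y)) := by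
    refine i0.mono (hw.mul (by fun_prop)).aestronglyMeasurable (Eventually.of_forall fun y => ?_)
    rw [norm_mul, norm_mul]
    gcongr
    rw [Real.norm_eq_abs, Real.norm_eq_abs]
    refine (Real.abs_cos_le_one _).trans (le_abs_self _ |>.trans' ?_)
    have := abs_nonneg y
    linarith
  have i2 : Integrable (fun y : ℝ => w θ y * (y * Real.sin (L * y))) := by
    refine i0.mono (hw.mul (by fun_prop)).aestronglyMeasurable (Eventually.of_forall fun y => ?_)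
    rw [norm_mul (w θ y), norm_mul (w θ y)]
    gcongr
    rw [norm_mul, Real.norm_eq_abs, Real.norm_eq_abs, Real.norm_eq_abs]
    refine le_trans ?_ (le_abs_self _)
    have h3 := Real.abs_sin_le_one (L * y)
    have := abs_nonneg y
    nlinarith
  have hint : Integrable (fun y => Ψ θ p y) := by
    have hm : Measurable (fun y => Ψ θ p y) := by
      unfold Ψ
      fun_prop
    have h4 : Integrable (fun y : ℝ => (M p.1 * M p.2) * |w θ y * (1 + |y|)|) :=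
      i0.abs.const_mul _
    exact h4.mono' hm.aestronglyMeasurable (Eventually.of_forall fun y => Ψ_norm θ p y)
  have h2 : (∫ y, Ψ θ p y).re = ∫ y, (Ψ θ p y).re := by
    have := integral_re (𝕜 := ℂ) hint
    simpa using this.symm
  rw [h2]
  have h3 : ∀ y : ℝ, (Ψ θ p y).re =
      M p.1 * M p.2 * (w θ y * Real.cos (L * y) - w θ y * (y * Real.sin (L * y))) := by
    intro y
    unfold Ψ
    rw [← hL, Complex.exp_mul_I, ← Complex.ofReal_cos, ← Complex.ofReal_sin]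
    simp only [Complex.mul_re, Complex.mul_im, Complex.add_re, Complex.add_im, Complex.ofReal_re,
      Complex.ofReal_im, Complex.one_re, Complex.one_im, Complex.I_re, Complex.I_im]
    rw [mul_comm y L]
    ring
  simp_rw [h3]
  rw [integral_const_mul, integral_sub i1 i2]
  congr 1
  unfold rr rd
  rw [sub_eq_add_neg]
  congr 1
  · congr 1; funext y; unfold w; ring
  · congr 2; funext y; unfold w; ring

theorem t (h1 : P_KRN) (h2 : P_RR) : P_KEB := by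
  intro θ h0 hθ u hu
  unfold JD
  rw [jd (fun L => rr θ L + rd θ L) u hu]
  set G : ℂ × ℂ → ℝ := fun p => (∫ y, Ψ θ p y).re with hG
  have hGe : ∀ p, G p = M p.1 * M p.2 * (rr θ (l p.1 - l p.2) + rd θ (l p.1 - l p.2)) :=
    fun p => int_y h1 θ h0 hθ p
  have hG0 : ∀ p, 0 ≤ G p := by
    intro p
    rw [hGe]
    exact mul_nonneg (mul_nonneg (M_nonneg _) (M_nonneg _)) ((h2 θ h0 hθ).2.1 _)
  have hΨ := Ψ_int h1 θ h0 hθ
  have hGi : Integrable G ((volume : Measure ℂ).prod (volume : Measure ℂ)) := by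
    have := hΨ.integral_prod_left.re
    simpa using this
  have e1 : ∫⁻ z : ℂ, ∫⁻ t : ℂ, ENNReal.ofReal (M z * M t * (rr θ (l z - l t) + rd θ (l z - l t))) =
      ∫⁻ p, ENNReal.ofReal (G p) ∂((volume : Measure ℂ).prod (volume : Measure ℂ)) := by
    rw [lintegral_prod _ hGi.aestronglyMeasurable.aemeasurable.ennreal_ofReal]
    simp_rw [hGe]
  rw [e1, ← ofReal_integral_eq_lintegral_ofReal hGi (Eventually.of_forall hG0)]
  apply le_of_eq
  congr 1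
  have e2 : ∫ p, G p ∂((volume : Measure ℂ).prod (volume : Measure ℂ)) =
      (∫ p, ∫ y, Ψ θ p y ∂volume ∂((volume : Measure ℂ).prod (volume : Measure ℂ))).re := by
    have := integral_re (𝕜 := ℂ) hΨ.integral_prod_left
    simpa using this
  rw [e2, integral_integral_swap hΨ]
  have e3 := integral_re (𝕜 := ℂ) hΨ.integral_prod_right
  have e4 : (∫ y, ∫ p, Ψ θ p y ∂((volume : Measure ℂ).prod (volume : Measure ℂ))).re =
      ∫ y, (∫ p, Ψ θ p y ∂((volume : Measure ℂ).prod (volume : Measure ℂ))).re := by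
    simpa using e3.symm
  rw [e4]
  congr 1
  funext y
  rw [int_p]
  simp only [Complex.mul_re, Complex.mul_im, Complex.add_re, Complex.add_im, Complex.ofReal_re,
    Complex.ofReal_im, Complex.one_re, Complex.one_im, Complex.I_re, Complex.I_im, w]
  ring

end Pool.Agent.H35PB.KEB
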